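import Pool.Agent.Lib.H15K.Defs

/-! Lemma S: a connected set all of whose vertices outside `S` separate `S` is thin: every subset
`X` of it contains an independent set `Y` with `|X| + 2 ≤ |S| + 2 |Y|`. -/

namespace Pool.Agent.Lib.H15K

variable {V : Type} {G : SimpleGraph V}

/-- Outside a closed part `E` of `W ∖ {v}` everything is joined to `v`. -/
theorem s_rest_v {W E : Set V} {v : V} (hW : Cn G W) (hv : v ∈ W) (hvE : v ∉ E)
    (hcl : ∀ u ∈ E, ∀ w ∈ W, w ≠ v → G.Adj u w → w ∈ E) :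
    ∀ x ∈ W \ E, RIn G (W \ E) x v := by
  intro x hx
  by_cases hxv : x = v
  · subst hxv
    exact RIn.refl hx
  have h := hW.2 x hx.1 v hv
  have hcl' : ∀ u ∈ (W \ {v}) \ E, ∀ w ∈ W \ {v}, G.Adj u w → w ∈ (W \ {v}) \ E := by
    intro u hu w hw huw
    refine ⟨hw, fun hwE => hu.2 ?_⟩
    exact hcl w hwE u hu.1.1 hu.1.2 huw.symm
  have hxm : x ∈ (W \ {v}) \ E := ⟨⟨hx.1, hxv⟩, hx.2⟩
  rcases RIn.hit ({v} : Set V) h with h | ⟨b, ⟨-, hb⟩, h⟩
  · exact absurd rfl h.right.2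
  · have hb : b = v := hb
    subst hb
    rcases h with rfl | ⟨c, hc, hcb⟩
    · exact absurd rfl hxv
    · have h1 := RIn.stay hcl' hxm hc
      refine RIn.tail (h1.mono ?_) hcb ⟨hv, hvE⟩
      exact fun y hy => ⟨hy.1.1, hy.2.2⟩

/-- Inside a closed part `E` of `W ∖ {v}` everything is joined to `v` in `E ∪ {v}`. -/
theorem s_in_v {W E : Set V} {v : V} (hW : Cn G W) (hv : v ∈ W) (hEW : E ⊆ W)
    (hvE : v ∉ E) (hcl : ∀ u ∈ E, ∀ w ∈ W, w ≠ v → G.Adj u w → w ∈ E) :
    ∀ x ∈ E, RIn G (insert v E) x v := by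
  intro x hx
  have h := hW.2 x (hEW hx) v hv
  have hcl' : ∀ u ∈ E, ∀ w ∈ W \ {v}, G.Adj u w → w ∈ E := by
    intro u hu w hw huw
    exact hcl u hu w hw.1 hw.2 huw
  have hxv : x ≠ v := fun h => hvE (h ▸ hx)
  rcases RIn.hit ({v} : Set V) h with h | ⟨b, ⟨-, hb⟩, h⟩
  · exact absurd rfl h.right.2
  · have hb : b = v := hb
    subst hb
    rcases h with rfl | ⟨c, hc, hcb⟩
    · exact absurd rfl hxv
    · have h1 := RIn.stay hcl' hx hc
      refine RIn.tail (h1.mono ?_) hcb (Set.mem_insert _ _)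
      exact fun y hy => Set.mem_insert_of_mem _ hy.2

theorem s_rest {W E : Set V} {v : V} (hW : Cn G W) (hv : v ∈ W) (hvE : v ∉ E)
    (hcl : ∀ u ∈ E, ∀ w ∈ W, w ≠ v → G.Adj u w → w ∈ E) : Cn G (W \ E) :=
  ⟨⟨v, hv, hvE⟩, fun x hx y hy =>
    (s_rest_v hW hv hvE hcl x hx).trans (s_rest_v hW hv hvE hcl y hy).symm⟩

/-- A smallest closed part consists of terminals. -/
theorem s_min [Finite V] {W S : Set V} (hW : Cn G W) (hS : S ⊆ W) {x0 : V} (hx0 : x0 ∈ S)
    (h2 : 2 ≤ W.ncard) (hcut : ∀ w ∈ W, w ∉ S → ∃ x ∈ S, ∃ y ∈ S, ¬ RIn G (W \ {w}) x y) :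
    ∃ v ∈ W, ∃ E ⊆ W, v ∉ E ∧ E.Nonempty ∧ x0 ∉ E ∧ E ⊆ S ∧
      ∀ u ∈ E, ∀ w ∈ W, w ≠ v → G.Adj u w → w ∈ E := by
  classical
  let P : Set V → Prop := fun E => ∃ v ∈ W, E ⊆ W ∧ v ∉ E ∧ E.Nonempty ∧ x0 ∉ E ∧
      ∀ u ∈ E, ∀ w ∈ W, w ≠ v → G.Adj u w → w ∈ E
  have hP : ∃ E, P E := by
    refine ⟨W \ {x0}, x0, hS hx0, Set.sdiff_subset, fun h => h.2 rfl, ?_, fun h => h.2 rfl, ?_⟩
    · by_contra hne
      rw [Set.not_nonempty_iff_eq_empty] at hne
      have h1 : W ⊆ {x0} := Set.sdiff_eq_empty.1 hne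
      have h3 := Set.ncard_le_ncard h1
      rw [Set.ncard_singleton] at h3
      omega
    · intro u _ w hw hwx _
      exact ⟨hw, hwx⟩
  obtain ⟨E, ⟨v, hv, hEW, hvE, hEne, hxE, hcl⟩, hmin⟩ := exists_min P Set.ncard hP
  refine ⟨v, hv, E, hEW, hvE, hEne, hxE, ?_, hcl⟩
  intro e he
  by_contra heS
  obtain ⟨x, hx, y, hy, hxy⟩ := hcut e (hEW he) heS
  have hve : v ≠ e := fun h => hvE (h ▸ he)
  have hrest : ∀ z ∈ W \ E, RIn G (W \ {e}) z v := by
    intro z hz
    refine (s_rest_v hW hv hvE hcl z hz).mono ?_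
    exact fun a ha => ⟨ha.1, fun h => ha.2 (by rw [Set.mem_singleton_iff.1 h]; exact he)⟩
  -- the new closed part
  let E' : Set V := {u | u ∈ W \ {e} ∧ ¬ RIn G (W \ {e}) u v}
  have hE'E : E' ⊆ E := by
    intro u hu
    by_contra huE
    exact hu.2 (hrest u ⟨hu.1.1, huE⟩)
  have heE' : e ∉ E' := fun h => h.1.2 rfl
  have hP' : P E' := by
    refine ⟨e, hEW he, fun u hu => hu.1.1, heE', ?_, fun h => hxE (hE'E h), ?_⟩
    · have hxe : x ≠ e := fun h => heS (h ▸ hx)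
      have hye : y ≠ e := fun h => heS (h ▸ hy)
      by_cases h1 : RIn G (W \ {e}) x v
      · exact ⟨y, ⟨hS hy, hye⟩, fun h' => hxy (h1.trans h'.symm)⟩
      · exact ⟨x, ⟨hS hx, hxe⟩, h1⟩
    · intro u hu w hw hwe huw
      refine ⟨⟨hw, hwe⟩, fun h' => hu.2 ?_⟩
      exact (RIn.adj hu.1 huw ⟨hw, hwe⟩).trans h'
  have h1 := hmin E' hP'
  have h3 : E'.ncard < E.ncard := by
    exact Set.ncard_lt_ncard ⟨hE'E, fun h => heE' (h he)⟩ (Set.toFinite _)
  omega

theorem s_lemma [Finite V] : ∀ n : ℕ, ∀ W S : Set V, W.ncard = n → Cn G W → S ⊆ W →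
    S.Nonempty → (∀ w ∈ W, w ∉ S → ∃ x ∈ S, ∃ y ∈ S, ¬ RIn G (W \ {w}) x y) →
    ∀ X ⊆ W, X.Nonempty → ∃ Y ⊆ X, Ind G Y ∧ X.ncard + 2 ≤ S.ncard + 2 * Y.ncard := by
  classical
  intro n
  induction n using Nat.strong_induction_on with
  | _ n ih =>
  intro W S hn hW hS hSne hcut X hXW hXne
  have hind1 : ∀ x : V, Ind G {x} := by
    intro x a ha b hb hab
    have ha : a = x := ha
    have hb : b = x := hb
    subst ha; subst hb
    exact G.loopless.irrefl _ hab
  obtain ⟨x0, hx0⟩ := hSne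
  by_cases h2 : 2 ≤ W.ncard
  · obtain ⟨v, hv, E, hEW, hvE, hEne, hxE, hES, hcl⟩ := s_min hW hS hx0 h2 hcut
    have hW1 : Cn G (W \ E) := s_rest hW hv hvE hcl
    have hEpos : 0 < E.ncard := (Set.ncard_pos (Set.toFinite _)).2 hEne
    have hWcard : (W \ E).ncard + E.ncard = W.ncard :=
      Set.ncard_sdiff_add_ncard_of_subset hEW
    have hScard : (S \ E).ncard + E.ncard = S.ncard :=
      Set.ncard_sdiff_add_ncard_of_subset hES
    have hS1card : (insert v (S \ E)).ncard ≤ (S \ E).ncard + 1 := Set.ncard_insert_le _ _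
    have hS1sub : insert v (S \ E) ⊆ W \ E := by
      intro a ha
      rcases ha with rfl | ha
      · exact ⟨hv, hvE⟩
      · exact ⟨hS ha.1, ha.2⟩
    have hcut1 : ∀ w ∈ W \ E, w ∉ insert v (S \ E) → ∃ x ∈ insert v (S \ E),
        ∃ y ∈ insert v (S \ E), ¬ RIn G ((W \ E) \ {w}) x y := by
      intro w hw hwS
      have hwv : w ≠ v := fun h => hwS (Or.inl h)
      have hwS' : w ∉ S := fun h => hwS (Or.inr ⟨h, hw.2⟩)
      obtain ⟨x, hx, y, hy, hxy⟩ := hcut w hw.1 hwS'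
      -- replacement of a terminal of `E` by `v`
      have hrep : ∀ x ∈ S, ∃ x' ∈ insert v (S \ E), RIn G (W \ {w}) x x' := by
        intro x hx
        by_cases hxE : x ∈ E
        · refine ⟨v, Set.mem_insert _ _, (s_in_v hW hv hEW hvE hcl x hxE).mono ?_⟩
          intro a ha
          rcases ha with rfl | ha
          · exact ⟨hv, fun h => hwv h.symm⟩
          · exact ⟨hEW ha, fun h => hw.2 (by rw [← Set.mem_singleton_iff.1 h]; exact ha)⟩
        · exact ⟨x, Or.inr ⟨hx, hxE⟩, RIn.refl ⟨hS hx, fun h => hwS' (by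
            rw [← Set.mem_singleton_iff.1 h]; exact hx)⟩⟩
      obtain ⟨x', hx', hxx'⟩ := hrep x hx
      obtain ⟨y', hy', hyy'⟩ := hrep y hy
      refine ⟨x', hx', y', hy', fun h => hxy (hxx'.trans (RIn.trans (h.mono ?_) hyy'.symm))⟩
      exact fun a ha => ⟨ha.1.1, ha.2⟩
    have hih := ih (W \ E).ncard (by omega) (W \ E) (insert v (S \ E)) rfl hW1 hS1sub
      ⟨v, Set.mem_insert _ _⟩ hcut1
    by_cases hXE : ∃ x, x ∈ X ∧ x ∈ E
    · obtain ⟨x, hxX, hxE'⟩ := hXE
      have hXcard : X.ncard ≤ (X \ insert v E).ncard + (E.ncard + 1) := by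
        have h1 : X ⊆ (X \ insert v E) ∪ insert v E := by
          intro a ha
          by_cases h : a ∈ insert v E
          · exact Or.inr h
          · exact Or.inl ⟨ha, h⟩
        calc X.ncard ≤ ((X \ insert v E) ∪ insert v E).ncard := Set.ncard_le_ncard h1
          _ ≤ (X \ insert v E).ncard + (insert v E).ncard := Set.ncard_union_le _ _
          _ ≤ _ := by
            have := Set.ncard_insert_le v E
            omega
      have hxne : x0 ∉ E := hxE
      have hS0 : E.ncard + 1 ≤ S.ncard := by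
        have : 0 < (S \ E).ncard := (Set.ncard_pos (Set.toFinite _)).2 ⟨x0, hx0, hxne⟩
        omega
      by_cases hX1 : (X \ insert v E).Nonempty
      · obtain ⟨Y1, hY1X, hY1, hY1c⟩ := hih (X \ insert v E)
          (fun a ha => ⟨hXW ha.1, fun h => ha.2 (Or.inr h)⟩) hX1
        have hxY1 : x ∉ Y1 := fun h => (hY1X h).2 (Or.inr hxE')
        refine ⟨insert x Y1, ?_, ?_, ?_⟩
        · intro a ha
          rcases ha with rfl | ha
          · exact hxX
          · exact (hY1X ha).1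
        · have hno : ∀ y ∈ Y1, ¬ G.Adj x y := by
            intro y hy hxy
            have h1 := hY1X hy
            have h3 : y ∈ E := hcl x hxE' y (hXW h1.1) (fun h => h1.2 (Or.inl h)) hxy
            exact h1.2 (Or.inr h3)
          intro a ha b hb hab
          rcases ha with rfl | ha <;> rcases hb with rfl | hb
          · exact G.loopless.irrefl _ hab
          · exact hno b hb hab
          · exact hno a ha hab.symm
          · exact hY1 a ha b hb hab
        · have h1 : (insert x Y1).ncard = Y1.ncard + 1 := Set.ncard_insert_of_notMem hxY1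
          omega
      · rw [Set.not_nonempty_iff_eq_empty] at hX1
        rw [hX1, Set.ncard_empty] at hXcard
        refine ⟨{x}, ?_, hind1 x, ?_⟩
        · intro a ha
          have ha : a = x := ha
          subst ha
          exact hxX
        · rw [Set.ncard_singleton]
          omega
    · push Not at hXE
      obtain ⟨Y, hYX, hY, hYc⟩ := hih X (fun a ha => ⟨hXW ha, hXE a ha⟩) hXne
      exact ⟨Y, hYX, hY, by omega⟩
  · obtain ⟨x, hx⟩ := hXne
    have hXc : X.ncard ≤ W.ncard := Set.ncard_le_ncard hXW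
    have hSc : 0 < S.ncard := (Set.ncard_pos (Set.toFinite _)).2 ⟨x0, hx0⟩
    refine ⟨{x}, ?_, hind1 x, ?_⟩
    · intro a ha
      have ha : a = x := ha
      subst ha
      exact hx
    · rw [Set.ncard_singleton]
      omega

end Pool.Agent.Lib.H15K
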