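import Pool.Agent.Lib.H15K.E
import Pool.Agent.Lib.H15K.S

/-! Step A: an admissible set with at least two roots. -/

namespace Pool.Agent.Lib.H15K

variable {V : Type} {G : SimpleGraph V}

/-- The maximality data of step A: a largest connected set `M` avoiding `S₂` and meeting `S₁`
such that two roots are still joined outside `M ∪ S₁`. -/
structure AM (G : SimpleGraph V) (S₁ S₂ M : Set V) (t t' : V) : Prop where
  cn : Cn G M
  dis : Disjoint M S₂
  ne : (M ∩ S₁).Nonempty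
  tm : t ∈ S₂
  tm' : t' ∈ S₂
  tne : t ≠ t'
  join : RIn G (M ∪ S₁)ᶜ t t'
  nb : ∀ v ∈ Nb G M, v ∉ S₁
  cut : ∀ v ∈ Nb G M, v ∉ S₂ → ∀ x ∈ S₂, ∀ y ∈ S₂, x ≠ y → ¬ RIn G (insert v (M ∪ S₁))ᶜ x y

theorem a_exists [Finite V] {S₁ S₂ : Set V} {a t t' : V} (hdis : Disjoint S₁ S₂) (ha : a ∈ S₁)
    (ht : t ∈ S₂) (ht' : t' ∈ S₂) (hne : t ≠ t') (hj : RIn G S₁ᶜ t t') :
    ∃ M t t', AM G S₁ S₂ M t t' := by
  classical
  let P : Set V → Prop := fun M => Cn G M ∧ Disjoint M S₂ ∧ (M ∩ S₁).Nonempty ∧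
    ∃ t ∈ S₂, ∃ t' ∈ S₂, t ≠ t' ∧ RIn G (M ∪ S₁)ᶜ t t'
  have hP : ∃ M, P M := by
    refine ⟨{a}, cn_singleton a, ?_, ⟨a, rfl, ha⟩, t, ht, t', ht', hne, ?_⟩
    · rw [Set.disjoint_left]
      intro x hx hxS
      have hx : x = a := hx
      subst hx
      exact Set.disjoint_left.1 hdis ha hxS
    · have h1 : ({a} ∪ S₁ : Set V) = S₁ := Set.union_eq_right.2 (by
        intro x hx
        have hx : x = a := hx
        subst hx
        exact ha)
      rw [h1]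
      exact hj
  obtain ⟨M, ⟨hM, hMS, hne, t, ht, t', ht', htt, hj⟩, hmax⟩ := exists_max P Set.ncard hP
  refine ⟨M, t, t', hM, hMS, hne, ht, ht', htt, hj, ?_, ?_⟩
  · intro v hv hvS
    have hPv : P (insert v M) := by
      refine ⟨cn_insert_nb hM hv, ?_, ?_, t, ht, t', ht', htt, ?_⟩
      · rw [Set.disjoint_left]
        intro x hx hxS
        rcases hx with rfl | hx
        · exact Set.disjoint_left.1 hdis hvS hxS
        · exact Set.disjoint_left.1 hMS hx hxS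
      · obtain ⟨x, hx⟩ := hne
        exact ⟨x, Or.inr hx.1, hx.2⟩
      · have h1 : insert v M ∪ S₁ = M ∪ S₁ := by
          rw [Set.insert_union]
          exact Set.insert_eq_of_mem (Or.inr hvS)
        rw [h1]
        exact hj
    have h1 := hmax _ hPv
    have h2 : (insert v M).ncard = M.ncard + 1 := Set.ncard_insert_of_notMem hv.1
    omega
  · intro v hv hvS x hx y hy hxy hr
    have hPv : P (insert v M) := by
      refine ⟨cn_insert_nb hM hv, ?_, ?_, x, hx, y, hy, hxy, ?_⟩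
      · rw [Set.disjoint_left]
        intro x hx hxS
        rcases hx with rfl | hx
        · exact hvS hxS
        · exact Set.disjoint_left.1 hMS hx hxS
      · obtain ⟨x, hx⟩ := hne
        exact ⟨x, Or.inr hx.1, hx.2⟩
      · rw [Set.insert_union]
        exact hr
    have h1 := hmax _ hPv
    have h2 : (insert v M).ncard = M.ncard + 1 := Set.ncard_insert_of_notMem hv.1
    omega

section
variable {S₁ S₂ M : Set V} {t t' : V}

/-- If `S₁ ⊆ M`, the component of the roots is admissible with two roots. -/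
theorem a_inside [Finite V] (h : AM G S₁ S₂ M t t') (hS : S₁ ⊆ M) :
    ∃ K, Adm G S₁ S₂ K ∧ 2 ≤ (K ∩ S₂).ncard := by
  classical
  have htK : t ∈ comp G (M ∪ S₁)ᶜ t := mem_comp_self h.join.left
  have htK' : t' ∈ comp G (M ∪ S₁)ᶜ t := h.join
  refine ⟨comp G (M ∪ S₁)ᶜ t, ⟨comp_cn h.join.left, ?_, ⟨t, htK, h.tm⟩, ?_⟩, ?_⟩
  · rw [Set.disjoint_left]
    intro x hx hxS
    exact comp_subset hx (Or.inr hxS)
  · intro x hx y hy
    refine (h.cn.2 x (hS hx) y (hS hy)).mono ?_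
    intro z hz hz'
    rcases hz' with hz' | hz'
    · exact comp_subset hz' (Or.inl hz)
    · exact Set.disjoint_left.1 h.dis hz hz'
  · have h1 : ({t, t'} : Set V) ⊆ comp G (M ∪ S₁)ᶜ t ∩ S₂ := by
      intro x hx
      rcases hx with rfl | hx
      · exact ⟨htK, h.tm⟩
      · have hx : x = t' := hx
        subst hx
        exact ⟨htK', h.tm'⟩
    have h2 := Set.ncard_le_ncard h1
    rwa [Set.ncard_pair h.tne] at h2

/-- Neighbours of `M` outside `S₂` lie in the component `Q'` of the two roots. -/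
theorem a_wq (h : AM G S₁ S₂ M t t') : ∀ w ∈ Nb G M, w ∉ S₂ →
    w ∈ comp G (M ∪ S₁)ᶜ t ∧ ∀ x ∈ S₂, ∀ y ∈ S₂, x ≠ y →
      ¬ RIn G (comp G (M ∪ S₁)ᶜ t \ {w}) x y := by
  intro w hw hwS
  have hsub : comp G (M ∪ S₁)ᶜ t \ {w} ⊆ (insert w (M ∪ S₁))ᶜ := by
    intro z hz hz'
    rcases hz' with rfl | hz'
    · exact hz.2 rfl
    · exact comp_subset hz.1 hz'
  have h1 : ∀ x ∈ S₂, ∀ y ∈ S₂, x ≠ y → ¬ RIn G (comp G (M ∪ S₁)ᶜ t \ {w}) x y :=
    fun x hx y hy hxy hr => h.cut w hw hwS x hx y hy hxy (hr.mono hsub)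
  refine ⟨?_, h1⟩
  by_contra hwQ
  refine h1 t h.tm t' h.tm' h.tne (RIn.mono ?_ (comp_joined h.join))
  exact fun z hz => ⟨hz, fun h => hwQ (by rw [← Set.mem_singleton_iff.1 h]; exact hz)⟩

/-- Not two vertices of `Nb M` outside `S₂` when `Q'` contains three roots. -/
theorem a_one (h : AM G S₁ S₂ M t t') {u : V} (hu : u ∈ comp G (M ∪ S₁)ᶜ t) (huS : u ∈ S₂)
    (hut : u ≠ t) (hut' : u ≠ t') {w w' : V} (hw : w ∈ Nb G M) (hwS : w ∉ S₂)
    (hw' : w' ∈ Nb G M) (hwS' : w' ∉ S₂) : w = w' := by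
  classical
  by_contra hne
  set Q := comp G (M ∪ S₁)ᶜ t with hQ
  have hQcn : Cn G Q := comp_cn h.join.left
  have htQ : t ∈ Q := mem_comp_self h.join.left
  have htQ' : t' ∈ Q := h.join
  obtain ⟨hwQ, h1⟩ := a_wq h w hw hwS
  obtain ⟨hwQ', h1'⟩ := a_wq h w' hw' hwS'
  -- roots not joined to `w'` off `w` are joined to `w` off `w'`
  have key : ∀ x ∈ S₂, x ∈ Q → ¬ RIn G (Q \ {w}) x w' → RIn G (Q \ {w'}) x w := by
    intro x hx hxQ hno
    rcases RIn.hit ({w, w'} : Set V) (hQcn.2 x hxQ w hwQ) with hh | ⟨b, ⟨-, hb⟩, hh⟩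
    · exact absurd (Or.inl rfl) hh.right.2
    · rcases hb with rfl | hb
      · rcases hh with rfl | ⟨c, hc, hcb⟩
        · exact absurd hx hwS
        · refine RIn.tail (hc.mono ?_) hcb ⟨hwQ, hne⟩
          exact fun y hy => ⟨hy.1, fun h => hy.2 (Or.inr h)⟩
      · exfalso
        have hb : b = w' := hb
        subst hb
        rcases hh with rfl | ⟨c, hc, hcb⟩
        · exact hwS' hx
        · refine hno (RIn.tail (hc.mono ?_) hcb ⟨hwQ', fun h => hne h.symm⟩)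
          exact fun y hy => ⟨hy.1, fun h => hy.2 (Or.inl h)⟩
  -- no two roots are joined to `w` off `w'`
  have key2 : ∀ x ∈ S₂, ∀ y ∈ S₂, x ≠ y → RIn G (Q \ {w'}) x w → RIn G (Q \ {w'}) y w → False :=
    fun x hx y hy hxy h2 h3 => h1' x hx y hy hxy (h2.trans h3.symm)
  have key3 : ∀ x ∈ S₂, ∀ y ∈ S₂, x ≠ y → RIn G (Q \ {w}) x w' → RIn G (Q \ {w}) y w' → False :=
    fun x hx y hy hxy h2 h3 => h1 x hx y hy hxy (h2.trans h3.symm)
  by_cases ha : RIn G (Q \ {w}) t w'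
  · have hb : ¬ RIn G (Q \ {w}) t' w' := fun hb => key3 t h.tm t' h.tm' h.tne ha hb
    have hc : ¬ RIn G (Q \ {w}) u w' := fun hb => key3 t h.tm u huS (Ne.symm hut) ha hb
    exact key2 t' h.tm' u huS (Ne.symm hut') (key t' h.tm' htQ' hb) (key u huS hu hc)
  · by_cases hb : RIn G (Q \ {w}) t' w'
    · have hc : ¬ RIn G (Q \ {w}) u w' := fun hc => key3 t' h.tm' u huS (Ne.symm hut') hb hc
      exact key2 t h.tm u huS (Ne.symm hut) (key t h.tm htQ ha) (key u huS hu hc)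
    · exact key2 t h.tm t' h.tm' h.tne (key t h.tm htQ ha) (key t' h.tm' htQ' hb)

/-- A piece outside `M ∪ S₁ ∪ {w}` has at most one root as neighbour. -/
theorem a_piece [Finite V] (h : AM G S₁ S₂ M t t') (hdis : Disjoint S₁ S₂) {w : V}
    (hw : w ∈ Nb G M) (hwS : w ∉ S₂) {C : Set V} (hC : Cn G C)
    (hCsub : C ⊆ (insert w (M ∪ S₁))ᶜ) :
    (Nb G C ∩ S₂).ncard ≤ 1 := by
  classical
  by_contra hlt
  push Not at hlt
  obtain ⟨x, hx, y, hy, hxy⟩ := (Set.one_lt_ncard (Set.toFinite _)).1 hlt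
  have hroot : ∀ x ∈ S₂, x ∈ (insert w (M ∪ S₁))ᶜ := by
    intro x hx hx'
    rcases hx' with rfl | hx' | hx'
    · exact hwS hx
    · exact Set.disjoint_left.1 h.dis hx' hx
    · exact Set.disjoint_left.1 hdis hx' hx
  obtain ⟨⟨hxC, c, hc, hcx⟩, hxS⟩ := hx
  obtain ⟨⟨hyC, d, hd, hdy⟩, hyS⟩ := hy
  refine h.cut w hw hwS x hxS y hyS hxy ?_
  have h1 : RIn G (insert w (M ∪ S₁))ᶜ x c := RIn.adj (hroot x hxS) hcx.symm (hCsub hc)
  have h2 : RIn G (insert w (M ∪ S₁))ᶜ c d := (hC.2 c hc d hd).mono hCsub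
  exact RIn.tail (h1.trans h2) hdy (hroot y hyS)

end

end Pool.Agent.Lib.H15K
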