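import Pool.Agent.Lib.H15K.A

/-! Step A, second part: the contradictions when `S₁ ⊄ M`. -/

namespace Pool.Agent.Lib.H15K

variable {V : Type} {G : SimpleGraph V}

section
variable {S₁ S₂ M : Set V} {t t' : V}

theorem a_diff [Finite V] (h : AM G S₁ S₂ M t t') : (S₁ \ M).ncard + 1 ≤ S₁.ncard := by
  have h1 := Set.ncard_inter_add_ncard_sdiff_eq_ncard S₁ M (Set.toFinite _)
  have h2 : 0 < (S₁ ∩ M).ncard := by
    rw [Set.inter_comm]
    exact (Set.ncard_pos (Set.toFinite _)).2 h.ne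
  omega

/-- Three roots in `Q'` are impossible. -/
theorem a_four [Finite V] {m i j : ℕ} (hr : KC G (i + j - 1)) (hsf : SF G m)
    (hdis : Disjoint S₁ S₂) (h1 : S₁.ncard = i) (h2 : S₂.ncard = j) (hi : 2 ≤ i) (hj : 3 ≤ j)
    (hjm : m ≤ j) (hind : Ind G S₂) (h : AM G S₁ S₂ M t t') {b : V} (hb : b ∈ S₁) (hbM : b ∉ M)
    {u : V} (hu : u ∈ comp G (M ∪ S₁)ᶜ t) (huS : u ∈ S₂) (hut : u ≠ t) (hut' : u ≠ t') :
    False := by
  classical
  obtain ⟨a, haM, haS⟩ := h.ne
  have hbN : b ∉ Nb G M := fun hb' => h.nb b hb' hb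
  have hNM : i + j - 1 ≤ (Nb G M).ncard := sep hr haM hbM hbN
  have hsplit := Set.ncard_inter_add_ncard_sdiff_eq_ncard (Nb G M) S₂ (Set.toFinite _)
  have hle2 : (Nb G M ∩ S₂).ncard ≤ S₂.ncard := Set.ncard_le_ncard Set.inter_subset_right
  have hpos : 0 < (Nb G M \ S₂).ncard := by omega
  obtain ⟨w, hw, hwS⟩ := (Set.ncard_pos (Set.toFinite _)).1 hpos
  have huniq : ∀ w' ∈ Nb G M, w' ∉ S₂ → w' = w := fun w' hw' hwS' =>
    (a_one h hu huS hut hut' hw hwS hw' hwS').symm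
  have hone : (Nb G M \ S₂).ncard ≤ 1 := by
    have h3 : Nb G M \ S₂ ⊆ {w} := fun x hx => huniq x hx.1 hx.2
    have h4 := Set.ncard_le_ncard h3
    rwa [Set.ncard_singleton] at h4
  have hi2 : i = 2 := by omega
  have hS₂N : Nb G M ∩ S₂ = S₂ :=
    Set.eq_of_subset_of_ncard_le Set.inter_subset_right (by omega)
  have hS₁ : S₁ \ M ⊆ {b} := by
    have h3 : ({b} : Set V) ⊆ S₁ \ M := by
      intro x hx
      have hx : x = b := hx
      subst hx
      exact ⟨hb, hbM⟩
    have h4 := a_diff h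
    have h5 : ({b} : Set V) = S₁ \ M := Set.eq_of_subset_of_ncard_le h3 (by
      rw [Set.ncard_singleton]; omega)
    rw [← h5]
  -- every vertex is in `M`, its neighbourhood, or `b`
  have hV : ∀ z, z ∈ M ∨ z ∈ Nb G M ∨ z = b := by
    intro z
    by_contra hz
    push Not at hz
    obtain ⟨hzM, hzN, hzb⟩ := hz
    set U : Set V := {z | z ∉ M ∧ z ∉ Nb G M ∧ z ≠ b} with hU
    have hzU : z ∈ U := ⟨hzM, hzN, hzb⟩
    set C := comp G U z with hCdef
    have hCU : C ⊆ U := comp_subset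
    have hC : Cn G C := comp_cn hzU
    have hCsub : C ⊆ (insert w (M ∪ S₁))ᶜ := by
      intro x hx hx'
      obtain ⟨hx1, hx2, hx3⟩ := hCU hx
      rcases hx' with rfl | hx' | hx'
      · exact hx2 hw
      · exact hx1 hx'
      · exact hx3 (hS₁ ⟨hx', hx1⟩)
    have hp := a_piece h hdis hw hwS hC hCsub
    have haC : a ∉ C := fun h' => (hCU h').1 haM
    have hnoM : ∀ v ∈ M, v ∉ Nb G C := by
      rintro v hv ⟨-, c, hc, hcv⟩
      exact (hCU hc).2.1 ⟨(hCU hc).1, v, hv, hcv.symm⟩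
    have hle := sep hr (mem_comp_self hzU : z ∈ C) haC (hnoM a haM)
    have hsub : Nb G C ⊆ (Nb G C ∩ S₂) ∪ {w, b} := by
      intro v hv
      by_cases hvS : v ∈ S₂
      · exact Or.inl ⟨hv, hvS⟩
      · right
        by_cases hvN : v ∈ Nb G M
        · exact Or.inl (huniq v hvN hvS)
        · by_cases hvb : v = b
          · exact Or.inr hvb
          · exfalso
            have hvM : v ∉ M := fun h' => hnoM v h' hv
            obtain ⟨hvC, c, hc, hcv⟩ := hv
            exact hvC (comp_closed c hc v ⟨hvM, hvN, hvb⟩ hcv)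
    have h5 := (Set.ncard_le_ncard hsub).trans (Set.ncard_union_le _ _)
    have h6 : ({w, b} : Set V).ncard ≤ 2 := by
      have h7 := Set.ncard_insert_le w ({b} : Set V)
      rw [Set.ncard_singleton] at h7
      exact h7
    have h7 : i + j - 1 ≤ (Nb G C).ncard := hle
    omega
  -- degree of `b`
  have hdeg := deg hr b
  have hN : {v | G.Adj b v} ⊆ ({v | G.Adj b v} ∩ S₂) ∪ {w} := by
    intro v hv
    have hv : G.Adj b v := hv
    by_cases hvS : v ∈ S₂
    · exact Or.inl ⟨hv, hvS⟩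
    · right
      rcases hV v with hvM | hvN | hvb
      · exact absurd ⟨hbM, v, hvM, hv.symm⟩ hbN
      · exact huniq v hvN hvS
      · subst hvb
        exact absurd hv (G.loopless.irrefl _)
  have h5 := (Set.ncard_le_ncard hN).trans (Set.ncard_union_le _ _)
  rw [Set.ncard_singleton] at h5
  have h6 : {v | G.Adj b v} ∩ S₂ = S₂ :=
    Set.eq_of_subset_of_ncard_le Set.inter_subset_right (by omega)
  have h7 := hsf b S₂ (fun y hy => by rw [← h6] at hy; exact hy.1) hind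
  omega

/-- Every vertex lies in `M`, `S₁`, `Q'` or `S₂`. -/
theorem a_cover [Finite V] {r : ℕ} (hr : KC G r) (hdis : Disjoint S₁ S₂)
    (h : AM G S₁ S₂ M t t') (hcard : S₁.ncard < r) {w : V} (hw : w ∈ Nb G M) (hwS : w ∉ S₂) :
    ∀ u, u ∈ M ∨ u ∈ S₁ ∨ u ∈ comp G (M ∪ S₁)ᶜ t ∨ u ∈ S₂ := by
  classical
  intro u
  by_contra hu
  push Not at hu
  set Q := comp G (M ∪ S₁)ᶜ t with hQ
  set U : Set V := {u | u ∉ M ∧ u ∉ S₁ ∧ u ∉ Q ∧ u ∉ S₂} with hU
  have huU : u ∈ U := hu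
  set C := comp G U u with hCdef
  have hCU : C ⊆ U := comp_subset
  have hC : Cn G C := comp_cn huU
  obtain ⟨a, haM, haS⟩ := h.ne
  have hwQ : w ∈ Q := (a_wq h w hw hwS).1
  have hCout : ∀ x ∈ C, x ∈ (M ∪ S₁)ᶜ := by
    rintro x hx (hx' | hx')
    · exact (hCU hx).1 hx'
    · exact (hCU hx).2.1 hx'
  have hCsub : C ⊆ (insert w (M ∪ S₁))ᶜ := by
    intro x hx hx'
    rcases hx' with rfl | hx'
    · exact (hCU hx).2.2.1 hwQ
    · exact hCout x hx hx'
  have hp := a_piece h hdis hw hwS hC hCsub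
  have haC : a ∉ C := fun h' => (hCU h').1 haM
  have hnoM : ∀ v ∈ M, v ∉ Nb G C := by
    rintro v hv ⟨-, c, hc, hcv⟩
    have hcN : c ∈ Nb G M := ⟨(hCU hc).1, v, hv, hcv.symm⟩
    exact (hCU hc).2.2.1 (a_wq h c hcN (hCU hc).2.2.2).1
  have hle := sep hr (mem_comp_self huU : u ∈ C) haC (hnoM a haM)
  have hsub : Nb G C ⊆ (Nb G C ∩ S₂) ∪ (S₁ \ M) := by
    intro v hv
    have hvM : v ∉ M := fun h' => hnoM v h' hv
    by_cases hvS : v ∈ S₂
    · exact Or.inl ⟨hv, hvS⟩
    · right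
      refine ⟨?_, hvM⟩
      by_contra hvS₁
      obtain ⟨hvC, c, hc, hcv⟩ := hv
      by_cases hvQ : v ∈ Q
      · exact (hCU hc).2.2.1 (comp_closed v hvQ c (hCout c hc) hcv.symm)
      · exact hvC (comp_closed c hc v ⟨hvM, hvS₁, hvQ, hvS⟩ hcv)
  have h5 := (Set.ncard_le_ncard hsub).trans (Set.ncard_union_le _ _)
  have h6 := a_diff h
  have h7 : r ≤ (Nb G C).ncard := hle
  omega

/-- With only two roots in `Q'`, every other vertex of `Q'` is a neighbour of `M`. -/
theorem a_thin [Finite V] {r : ℕ} (hr : KC G r) (h : AM G S₁ S₂ M t t')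
    (hcard : S₁.ncard + 1 < r) (htwo : ∀ u ∈ comp G (M ∪ S₁)ᶜ t, u ∈ S₂ → u = t ∨ u = t') :
    ∀ z ∈ comp G (M ∪ S₁)ᶜ t, z ∈ Nb G M ∨ z = t ∨ z = t' := by
  classical
  intro z hz
  by_contra hz'
  push Not at hz'
  set Q := comp G (M ∪ S₁)ᶜ t with hQ
  have hQcn : Cn G Q := comp_cn h.join.left
  have hQout : Q ⊆ (M ∪ S₁)ᶜ := comp_subset
  have htQ : t ∈ Q := mem_comp_self h.join.left
  have htQ' : t' ∈ Q := h.join
  set U : Set V := {z | z ∈ Q ∧ z ∉ Nb G M ∧ z ≠ t ∧ z ≠ t'} with hU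
  have hzU : z ∈ U := ⟨hz, hz'⟩
  set D := comp G U z with hDdef
  have hDU : D ⊆ U := comp_subset
  have hD : Cn G D := comp_cn hzU
  have hDQ : D ⊆ Q := fun x hx => (hDU hx).1
  obtain ⟨a, haM, haS⟩ := h.ne
  have haD : a ∉ D := fun h' => hQout (hDQ h') (Or.inl haM)
  have hnoM : ∀ v ∈ M, v ∉ Nb G D := by
    rintro v hv ⟨-, d, hd, hdv⟩
    exact (hDU hd).2.1 ⟨fun h' => hQout (hDQ hd) (Or.inl h'), v, hv, hdv.symm⟩
  have hle := sep hr (mem_comp_self hzU : z ∈ D) haD (hnoM a haM)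
  have hsub : Nb G D ⊆ (Nb G D ∩ Q) ∪ (S₁ \ M) := by
    intro v hv
    have hvM : v ∉ M := fun h' => hnoM v h' hv
    by_cases hvS : v ∈ S₁
    · exact Or.inr ⟨hvS, hvM⟩
    · left
      refine ⟨hv, ?_⟩
      obtain ⟨hvD, d, hd, hdv⟩ := hv
      refine comp_closed d (hDQ hd) v ?_ hdv
      rintro (h' | h')
      · exact hvM h'
      · exact hvS h'
  have hE : (Nb G D ∩ Q).ncard ≤ ({t, t'} : Set V).ncard := by
    refine e_lemma hQcn ?_ hD hDQ (fun w hw => hw.2) (fun w hw => hw.1.1) ?_ ?_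
    · intro x hx
      rcases hx with rfl | hx
      · exact htQ
      · have hx : x = t' := hx
        subst hx
        exact htQ'
    · rintro w ⟨⟨-, d, hd, hdw⟩, -⟩
      exact ⟨d, hd, hdw⟩
    · rintro w ⟨⟨hwD, d, hd, hdw⟩, hwQ⟩ hwS
      have hwt : w ≠ t := fun h' => hwS (Or.inl h')
      have hwt' : w ≠ t' := fun h' => hwS (Or.inr h')
      have hwN : w ∈ Nb G M := by
        by_contra hwN
        exact hwD (comp_closed d hd w ⟨hwQ, hwN, hwt, hwt'⟩ hdw)
      have hwS₂ : w ∉ S₂ := fun h' => (htwo w hwQ h').elim hwt hwt'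
      exact ⟨t, Or.inl rfl, t', Or.inr rfl, (a_wq h w hwN hwS₂).2 t h.tm t' h.tm' h.tne⟩
  rw [Set.ncard_pair h.tne] at hE
  have h5 := (Set.ncard_le_ncard hsub).trans (Set.ncard_union_le _ _)
  have h6 := a_diff h
  have h7 : r ≤ (Nb G D).ncard := hle
  omega

/-- The final count around a vertex `b ∈ S₁ ∖ M`. -/
theorem a_six [Finite V] {m i j : ℕ} (hr : KC G (i + j - 1)) (hsf : SF G m)
    (hdis : Disjoint S₁ S₂) (h1 : S₁.ncard = i) (h2 : S₂.ncard = j) (hi : 2 ≤ i) (hj : 3 ≤ j)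
    (hjm : m ≤ j) (hjm2 : 2 * m ≤ j + 2) (hind : Ind G S₂) (h : AM G S₁ S₂ M t t') {b : V}
    (hb : b ∈ S₁) (hbM : b ∉ M) : False := by
  classical
  obtain ⟨a, haM, haS⟩ := h.ne
  have hbN : b ∉ Nb G M := fun hb' => h.nb b hb' hb
  have hNM : i + j - 1 ≤ (Nb G M).ncard := sep hr haM hbM hbN
  have hsplit := Set.ncard_inter_add_ncard_sdiff_eq_ncard (Nb G M) S₂ (Set.toFinite _)
  have hle2 : (Nb G M ∩ S₂).ncard ≤ S₂.ncard := Set.ncard_le_ncard Set.inter_subset_right
  have hpos : 0 < (Nb G M \ S₂).ncard := by omega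
  obtain ⟨w, hw, hwS⟩ := (Set.ncard_pos (Set.toFinite _)).1 hpos
  have htwo : ∀ u ∈ comp G (M ∪ S₁)ᶜ t, u ∈ S₂ → u = t ∨ u = t' := by
    intro u hu huS
    by_contra hno
    push Not at hno
    exact a_four hr hsf hdis h1 h2 hi hj hjm hind h hb hbM hu huS hno.1 hno.2
  have hcov := a_cover hr hdis h (by omega) hw hwS
  have hthin := a_thin hr h (by omega) htwo
  set Q := comp G (M ∪ S₁)ᶜ t with hQ
  have hQcn : Cn G Q := comp_cn h.join.left
  have hQout : Q ⊆ (M ∪ S₁)ᶜ := comp_subset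
  have htQ : t ∈ Q := mem_comp_self h.join.left
  have htQ' : t' ∈ Q := h.join
  have hdeg := deg hr b
  set N : Set V := {v | G.Adj b v} with hN
  have hsub : N ⊆ (S₁ \ insert b M) ∪ ((N ∩ Q) ∪ (N ∩ (S₂ \ Q))) := by
    intro v hv
    have hv' : G.Adj b v := hv
    have hvM : v ∉ M := fun h' => hbN ⟨hbM, v, h', hv'.symm⟩
    have hvb : v ≠ b := fun h' => by
      subst h'
      exact G.loopless.irrefl _ hv'
    rcases hcov v with h' | h' | h' | h'
    · exact absurd h' hvM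
    · left
      refine ⟨h', ?_⟩
      rintro (h'' | h'')
      · exact hvb h''
      · exact hvM h''
    · exact Or.inr (Or.inl ⟨hv, h'⟩)
    · by_cases hvQ : v ∈ Q
      · exact Or.inr (Or.inl ⟨hv, hvQ⟩)
      · exact Or.inr (Or.inr ⟨hv, h', hvQ⟩)
  have hc1 := (Set.ncard_le_ncard hsub).trans (Set.ncard_union_le _ _)
  have hc2 := Set.ncard_union_le (N ∩ Q) (N ∩ (S₂ \ Q))
  have hc3 : (S₁ \ insert b M).ncard + 2 ≤ S₁.ncard := by
    have h3 := Set.ncard_inter_add_ncard_sdiff_eq_ncard S₁ (insert b M) (Set.toFinite _)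
    have hab : a ≠ b := fun h' => hbM (h' ▸ haM)
    have h4 : ({a, b} : Set V) ⊆ S₁ ∩ insert b M := by
      intro x hx
      rcases hx with rfl | hx
      · exact ⟨haS, Or.inr haM⟩
      · have hx : x = b := hx
        subst hx
        exact ⟨hb, Or.inl rfl⟩
    have h5 := Set.ncard_le_ncard h4
    rw [Set.ncard_pair hab] at h5
    omega
  -- independence between `Q` and the other roots
  have hQr : ∀ x ∈ Q, ∀ y ∈ S₂ \ Q, ¬ G.Adj x y := by
    intro x hx y hy hxy
    refine hy.2 (comp_closed x hx y ?_ hxy)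
    rintro (h' | h')
    · exact Set.disjoint_left.1 h.dis h' hy.1
    · exact Set.disjoint_left.1 hdis h' hy.1
  have hYr : Ind G (N ∩ (S₂ \ Q)) := fun x hx y hy => hind x hx.2.1 y hy.2.1
  by_cases hX : (N ∩ Q).Nonempty
  · obtain ⟨Y, hYX, hY, hYc⟩ := s_lemma Q.ncard Q {t, t'} rfl hQcn
      (by
        intro x hx
        rcases hx with rfl | hx
        · exact htQ
        · have hx : x = t' := hx
          subst hx
          exact htQ') ⟨t, Or.inl rfl⟩
      (fun w hw hwS => by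
        have hwt : w ≠ t := fun h' => hwS (Or.inl h')
        have hwt' : w ≠ t' := fun h' => hwS (Or.inr h')
        have hwN : w ∈ Nb G M := by
          rcases hthin w hw with h' | h' | h'
          · exact h'
          · exact absurd h' hwt
          · exact absurd h' hwt'
        have hwS₂ : w ∉ S₂ := fun h' => (htwo w hw h').elim hwt hwt'
        exact ⟨t, Or.inl rfl, t', Or.inr rfl, (a_wq h w hwN hwS₂).2 t h.tm t' h.tm' h.tne⟩)
      (N ∩ Q) Set.inter_subset_right hX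
    rw [Set.ncard_pair h.tne] at hYc
    have hdisj : Disjoint Y (N ∩ (S₂ \ Q)) := by
      rw [Set.disjoint_left]
      intro x hx hx'
      exact hx'.2.2 (hYX hx).2
    have hcu := Set.ncard_union_eq hdisj (Set.toFinite _) (Set.toFinite _)
    have h3 := hsf b (Y ∪ (N ∩ (S₂ \ Q)))
      (fun y hy => by
        rcases hy with hy | hy
        · exact (hYX hy).1
        · exact hy.1)
      (by
        rintro x (hx | hx) y (hy | hy)
        · exact hY x hx y hy
        · exact hQr x (hYX hx).2 y hy.2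
        · exact fun hxy => hQr y (hYX hy).2 x hx.2 hxy.symm
        · exact hYr x hx y hy)
    omega
  · rw [Set.not_nonempty_iff_eq_empty] at hX
    have hX0 : (N ∩ Q).ncard = 0 := by rw [hX, Set.ncard_empty]
    have h3 := hsf b (N ∩ (S₂ \ Q)) (fun y hy => hy.1) hYr
    omega

end

/-- Step A. -/
theorem a_lemma [Finite V] {m i j : ℕ} {S₁ S₂ : Set V} (hr : KC G (i + j - 1)) (hsf : SF G m)
    (hdis : Disjoint S₁ S₂) (h1 : S₁.ncard = i) (h2 : S₂.ncard = j) (hi : 2 ≤ i) (hj : 3 ≤ j)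
    (hjm : m ≤ j) (hjm2 : 2 * m ≤ j + 2) :
    ∃ K, Adm G S₁ S₂ K ∧ 2 ≤ (K ∩ S₂).ncard := by
  classical
  by_cases hind : Ind G S₂
  · obtain ⟨a, ha⟩ : S₁.Nonempty := (Set.ncard_pos (Set.toFinite _)).1 (by omega)
    obtain ⟨t, ht, t', ht', htt⟩ := (Set.one_lt_ncard (Set.toFinite S₂)).1 (by omega)
    have hj' : RIn G S₁ᶜ t t' := by
      refine (hr.2 S₁ (by omega)).2 t ?_ t' ?_
      · exact fun h' => Set.disjoint_left.1 hdis h' ht
      · exact fun h' => Set.disjoint_left.1 hdis h' ht'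
    obtain ⟨M, t, t', hM⟩ := a_exists hdis ha ht ht' htt hj'
    by_cases hS : S₁ ⊆ M
    · exact a_inside hM hS
    · exfalso
      obtain ⟨b, hb, hbM⟩ := Set.not_subset.1 hS
      exact a_six hr hsf hdis h1 h2 hi hj hjm hjm2 hind hM hb hbM
  · unfold Ind at hind
    push Not at hind
    obtain ⟨x, hx, y, hy, hxy⟩ := hind
    have hxyne : x ≠ y := hxy.ne
    refine ⟨insert y {x}, ⟨cn_insert (cn_singleton x) rfl hxy, ?_, ⟨x, Or.inr rfl, hx⟩, ?_⟩, ?_⟩
    · rw [Set.disjoint_left]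
      intro z hz hzS
      rcases hz with rfl | hz
      · exact Set.disjoint_left.1 hdis hzS hy
      · have hz : z = x := hz
        subst hz
        exact Set.disjoint_left.1 hdis hzS hx
    · have h3 : insert y {x} ∪ S₂ = S₂ := by
        refine Set.union_eq_right.2 ?_
        intro z hz
        rcases hz with rfl | hz
        · exact hy
        · have hz : z = x := hz
          subst hz
          exact hx
      rw [h3]
      intro z hz z' hz'
      refine (hr.2 S₂ (by omega)).2 z ?_ z' ?_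
      · exact fun h' => Set.disjoint_left.1 hdis hz h'
      · exact fun h' => Set.disjoint_left.1 hdis hz' h'
    · have h3 : (insert y {x} : Set V) ∩ S₂ = {y, x} := by
        refine Set.inter_eq_left.2 ?_
        intro z hz
        rcases hz with rfl | hz
        · exact hy
        · have hz : z = x := hz
          subst hz
          exact hx
      rw [h3, Set.ncard_pair hxyne.symm]

end Pool.Agent.Lib.H15K
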