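import Pool.Agent.Lib.H15K.E
import Pool.Agent.Lib.H15K.S

/-! Step B: from an admissible set with at least `q₀` roots to the two disjoint connected sets. -/

namespace Pool.Agent.Lib.H15K

variable {V : Type} {G : SimpleGraph V}

/-- A best admissible set: most roots, then most vertices. -/
structure Best (G : SimpleGraph V) (S₁ S₂ K : Set V) : Prop where
  adm : Adm G S₁ S₂ K
  roots : ∀ L, Adm G S₁ S₂ L → (L ∩ S₂).ncard ≤ (K ∩ S₂).ncard
  size : ∀ L, Adm G S₁ S₂ L → (L ∩ S₂).ncard = (K ∩ S₂).ncard → L.ncard ≤ K.ncard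

theorem b_best [Finite V] {S₁ S₂ : Set V} (h : ∃ K, Adm G S₁ S₂ K) :
    ∃ K, Best G S₁ S₂ K := by
  classical
  obtain ⟨K₁, hK₁, h₁⟩ := exists_max (Adm G S₁ S₂) (fun K => (K ∩ S₂).ncard) h
  obtain ⟨K, ⟨hK, hKq⟩, h₂⟩ := exists_max
    (fun K => Adm G S₁ S₂ K ∧ (K ∩ S₂).ncard = (K₁ ∩ S₂).ncard) Set.ncard ⟨K₁, hK₁, rfl⟩
  exact ⟨K, hK, fun L hL => by rw [hKq]; exact h₁ L hL,
    fun L hL hLq => h₂ L ⟨hL, by rw [hLq, hKq]⟩⟩

/-- No root outside `K` is adjacent to `K`. -/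
theorem b_one [Finite V] {S₁ S₂ K : Set V} (hdis : Disjoint S₁ S₂) (hK : Best G S₁ S₂ K) :
    ∀ t ∈ S₂, t ∉ Nb G K := by
  intro t ht htN
  have h1 : Adm G S₁ S₂ (insert t K) := by
    refine ⟨cn_insert_nb hK.adm.1 htN, ?_, ?_, ?_⟩
    · rw [Set.disjoint_left]
      intro a ha haS
      rcases ha with rfl | ha
      · exact Set.disjoint_left.1 hdis haS ht
      · exact Set.disjoint_left.1 hK.adm.2.1 ha haS
    · obtain ⟨x, hx⟩ := hK.adm.2.2.1
      exact ⟨x, Or.inr hx.1, hx.2⟩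
    · have h2 : insert t K ∪ S₂ = K ∪ S₂ := by
        ext a
        constructor
        · rintro ((rfl | ha) | ha)
          · exact Or.inr ht
          · exact Or.inl ha
          · exact Or.inr ha
        · rintro (ha | ha)
          · exact Or.inl (Or.inr ha)
          · exact Or.inr ha
      rw [h2]
      exact hK.adm.2.2.2
  have h3 := hK.roots _ h1
  have h4 : (K ∩ S₂).ncard < (insert t K ∩ S₂).ncard := by
    refine Set.ncard_lt_ncard ⟨?_, ?_⟩ (Set.toFinite _)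
    · exact fun a ha => ⟨Or.inr ha.1, ha.2⟩
    · intro h
      exact htN.1 (h ⟨Set.mem_insert _ _, ht⟩).1
  omega

/-- Neighbours of `K` outside `S₁` separate `S₁` in the component `Q` of `S₁` outside `K ∪ S₂`. -/
theorem b_two [Finite V] {S₁ S₂ K : Set V} (hdis : Disjoint S₁ S₂) (hK : Best G S₁ S₂ K)
    {a : V} (ha : a ∈ S₁) : ∀ w ∈ Nb G K, w ∉ S₁ → w ∈ comp G (K ∪ S₂)ᶜ a ∧
      ∃ x ∈ S₁, ∃ y ∈ S₁, ¬ RIn G (comp G (K ∪ S₂)ᶜ a \ {w}) x y := by
  intro w hw hwS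
  have hwS₂ : w ∉ S₂ := fun h => b_one hdis hK w h hw
  have h1 : ¬ Joined G (insert w K ∪ S₂)ᶜ S₁ := by
    intro hJ
    have h2 : Adm G S₁ S₂ (insert w K) := by
      refine ⟨cn_insert_nb hK.adm.1 hw, ?_, ?_, hJ⟩
      · rw [Set.disjoint_left]
        intro a ha haS
        rcases ha with rfl | ha
        · exact hwS haS
        · exact Set.disjoint_left.1 hK.adm.2.1 ha haS
      · obtain ⟨x, hx⟩ := hK.adm.2.2.1
        exact ⟨x, Or.inr hx.1, hx.2⟩
    have h3 : insert w K ∩ S₂ = K ∩ S₂ := by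
      ext a
      constructor
      · rintro ⟨rfl | ha, ha'⟩
        · exact absurd ha' hwS₂
        · exact ⟨ha, ha'⟩
      · rintro ⟨ha, ha'⟩
        exact ⟨Or.inr ha, ha'⟩
    have h4 := hK.size _ h2 (by rw [h3])
    have h5 : (insert w K).ncard = K.ncard + 1 := Set.ncard_insert_of_notMem hw.1
    omega
  -- joined inside the component
  have hQ : ∀ x ∈ S₁, x ∈ comp G (K ∪ S₂)ᶜ a := fun x hx => hK.adm.2.2.2 a ha x hx
  have hsub : comp G (K ∪ S₂)ᶜ a \ {w} ⊆ (insert w K ∪ S₂)ᶜ := by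
    intro z hz h
    have hz1 : z ∈ (K ∪ S₂)ᶜ := comp_subset hz.1
    rcases h with (rfl | h) | h
    · exact hz.2 rfl
    · exact hz1 (Or.inl h)
    · exact hz1 (Or.inr h)
  have h2 : ∃ x ∈ S₁, ∃ y ∈ S₁, ¬ RIn G (comp G (K ∪ S₂)ᶜ a \ {w}) x y := by
    by_contra hno
    push Not at hno
    exact h1 fun x hx y hy => (hno x hx y hy).mono hsub
  refine ⟨?_, h2⟩
  by_contra hwQ
  obtain ⟨x, hx, y, hy, hxy⟩ := h2
  refine hxy (((comp_joined (hQ x hx)).symm.trans (comp_joined (hQ y hy))).mono ?_)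
  exact fun z hz => ⟨hz, fun h => hwQ (by rw [← Set.mem_singleton_iff.1 h]; exact hz)⟩

theorem b_lemma [Finite V] {r m q0 : ℕ} {S₁ S₂ : Set V} (hr : KC G r)
    (hsf : SF G m) (hdis : Disjoint S₁ S₂) (h1 : S₁.Nonempty)
    (hq : S₁.ncard + S₂.ncard + 1 ≤ r + q0)
    (hb : S₁.ncard + S₂.ncard / 2 + 2 * m ≤ r + 4)
    (hK : ∃ K, Adm G S₁ S₂ K ∧ q0 ≤ (K ∩ S₂).ncard) : Lk G S₁ S₂ := by
  classical
  obtain ⟨K₀, hK₀, hq₀⟩ := hK
  obtain ⟨K, hKB⟩ := b_best ⟨K₀, hK₀⟩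
  have hqK : q0 ≤ (K ∩ S₂).ncard := hq₀.trans (hKB.roots K₀ hK₀)
  obtain ⟨a, ha⟩ := h1
  obtain ⟨k, hk⟩ := hKB.adm.1.1
  set Q := comp G (K ∪ S₂)ᶜ a with hQdef
  have haQ : a ∈ (K ∪ S₂)ᶜ := by
    rintro (h | h)
    · exact Set.disjoint_left.1 hKB.adm.2.1 h ha
    · exact Set.disjoint_left.1 hdis ha h
  have hQcn : Cn G Q := comp_cn haQ
  have hS₁Q : S₁ ⊆ Q := fun x hx => hKB.adm.2.2.2 a ha x hx
  have hWQ : Nb G K ⊆ Q := by
    intro w hw
    by_cases hwS : w ∈ S₁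
    · exact hS₁Q hwS
    · exact (b_two hdis hKB ha w hw hwS).1
  by_cases hT : (S₂ \ K).Nonempty
  swap
  · rw [Set.not_nonempty_iff_eq_empty, Set.sdiff_eq_empty] at hT
    refine ⟨Q, K, hS₁Q, hT, ?_, hQcn, hKB.adm.1⟩
    rw [Set.disjoint_left]
    intro x hx hxK
    exact comp_subset hx (Or.inl hxK)
  exfalso
  obtain ⟨t, ht⟩ := hT
  have hTcard : (S₂ \ K).ncard + (K ∩ S₂).ncard = S₂.ncard := by
    have h2 := Set.ncard_inter_add_ncard_sdiff_eq_ncard S₂ K (Set.toFinite _)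
    rw [Set.inter_comm K S₂]
    omega
  -- everything lies in `K`, its neighbourhood or `S₂`
  have hU : ∀ u, u ∈ K ∨ u ∈ Nb G K ∨ u ∈ S₂ := by
    intro u
    by_contra hu
    push Not at hu
    obtain ⟨huK, huN, huS⟩ := hu
    set U : Set V := {u | u ∉ K ∧ u ∉ Nb G K ∧ u ∉ S₂} with hUdef
    have huU : u ∈ U := ⟨huK, huN, huS⟩
    set D := comp G U u with hDdef
    have hDcn : Cn G D := comp_cn huU
    have hDU : D ⊆ U := comp_subset
    have hkD : k ∉ D := fun h => (hDU h).1 hk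
    have hkN : k ∉ Nb G D := by
      rintro ⟨-, d, hd, hdk⟩
      exact (hDU hd).2.1 ⟨(hDU hd).1, k, hk, hdk.symm⟩
    have hNb : Nb G D ⊆ (Nb G D ∩ Nb G K) ∪ (S₂ \ K) := by
      intro w hw
      have hwK : w ∉ K := by
        intro h
        obtain ⟨-, d, hd, hdw⟩ := hw
        exact (hDU hd).2.1 ⟨(hDU hd).1, w, h, hdw.symm⟩
      by_cases hwN : w ∈ Nb G K
      · exact Or.inl ⟨hw, hwN⟩
      · right
        refine ⟨?_, hwK⟩
        by_contra hwS
        obtain ⟨hwD, d, hd, hdw⟩ := hw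
        exact hwD (comp_closed d hd w ⟨hwK, hwN, hwS⟩ hdw)
    have hW0 : (Nb G D ∩ Nb G K).ncard ≤ S₁.ncard := by
      by_cases hne : (Nb G D ∩ Nb G K).Nonempty
      · obtain ⟨w, hw⟩ := hne
        obtain ⟨⟨hwD, d, hd, hdw⟩, hwK⟩ := hw
        have hDQ : D ⊆ Q := by
          have hDsub : D ⊆ (K ∪ S₂)ᶜ := by
            rintro x hx (h | h)
            · exact (hDU hx).1 h
            · exact (hDU hx).2.2 h
          refine cn_subset_comp hDcn.2 hDsub hd ?_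
          exact comp_closed w (hWQ hwK) d (hDsub hd) hdw.symm
        refine e_lemma hQcn hS₁Q hDcn hDQ (fun w hw => hWQ hw.2) (fun w hw => hw.1.1)
          (fun w hw => ?_) (fun w hw hwS => (b_two hdis hKB ha w hw.2 hwS).2)
        obtain ⟨-, d, hd, hdw⟩ := hw.1
        exact ⟨d, hd, hdw⟩
      · rw [Set.not_nonempty_iff_eq_empty] at hne
        rw [hne, Set.ncard_empty]
        exact Nat.zero_le _
    have hrle : r ≤ (Nb G D).ncard := sep hr (mem_comp_self huU : u ∈ D) hkD hkN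
    have hle : (Nb G D).ncard ≤ (Nb G D ∩ Nb G K).ncard + (S₂ \ K).ncard :=
      (Set.ncard_le_ncard hNb).trans (Set.ncard_union_le _ _)
    omega
  -- so `Q` is the neighbourhood of `K`
  have hQW : Q = Nb G K := by
    refine Set.Subset.antisymm ?_ hWQ
    intro x hx
    have hx' : x ∈ (K ∪ S₂)ᶜ := comp_subset hx
    rcases hU x with h | h | h
    · exact absurd (Or.inl h) hx'
    · exact h
    · exact absurd (Or.inr h) hx'
  -- the component of `t` among the roots outside `K`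
  set T' := comp G (S₂ \ K) t with hT'def
  have hT'sub : T' ⊆ S₂ \ K := comp_subset
  have htT' : t ∈ T' := mem_comp_self ht
  have hT'adm : Adm G S₁ S₂ T' := by
    refine ⟨comp_cn ht, ?_, ⟨t, htT', ht.1⟩, ?_⟩
    · rw [Set.disjoint_left]
      intro x hx hxS
      exact Set.disjoint_left.1 hdis hxS (hT'sub hx).1
    · intro x hx y hy
      refine (hKB.adm.2.2.2 x hx y hy).mono ?_
      intro z hz h
      rcases h with h | h
      · exact hz (Or.inr (hT'sub h).1)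
      · exact hz (Or.inr h)
  have hT'1 : T'.ncard ≤ (K ∩ S₂).ncard := by
    have h2 := hKB.roots _ hT'adm
    have h3 : T' ∩ S₂ = T' := Set.inter_eq_left.2 fun x hx => (hT'sub hx).1
    rwa [h3] at h2
  have hT'2 : T'.ncard ≤ (S₂ \ K).ncard := Set.ncard_le_ncard hT'sub
  -- degree of `t`
  have hdeg := deg hr t
  have hN : {w | G.Adj t w} ⊆ ({w | G.Adj t w} ∩ Nb G K) ∪ (T' \ {t}) := by
    intro w hw
    have hw : G.Adj t w := hw
    rcases hU w with h | h | h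
    · exact absurd ⟨ht.2, w, h, hw.symm⟩ (b_one hdis hKB t ht.1)
    · exact Or.inl ⟨hw, h⟩
    · by_cases hwK : w ∈ K
      · exact absurd ⟨ht.2, w, hwK, hw.symm⟩ (b_one hdis hKB t ht.1)
      · right
        refine ⟨comp_closed t htT' w ⟨h, hwK⟩ hw, fun h => ?_⟩
        have h : w = t := h
        subst h
        exact G.loopless.irrefl _ hw
  have hT'3 : (T' \ {t}).ncard + 1 = T'.ncard := Set.ncard_sdiff_singleton_add_one htT'
  have hle : {w | G.Adj t w}.ncard ≤ ({w | G.Adj t w} ∩ Nb G K).ncard + (T' \ {t}).ncard :=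
    (Set.ncard_le_ncard hN).trans (Set.ncard_union_le _ _)
  by_cases hX : ({w | G.Adj t w} ∩ Nb G K).Nonempty
  · obtain ⟨Y, hYX, hY, hYc⟩ := s_lemma (Nb G K).ncard (Nb G K) S₁ rfl (by rw [← hQW]; exact hQcn)
      (by rw [← hQW]; exact hS₁Q) ⟨a, ha⟩
      (fun w hw hwS => by
        have h2 := (b_two hdis hKB ha w hw hwS).2
        rw [← hQdef, hQW] at h2
        exact h2)
      ({w | G.Adj t w} ∩ Nb G K) Set.inter_subset_right hX
    have h3 := hsf t Y (fun y hy => (hYX hy).1) hY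
    omega
  · rw [Set.not_nonempty_iff_eq_empty] at hX
    rw [hX, Set.ncard_empty] at hle
    have : 0 < S₁.ncard := (Set.ncard_pos (Set.toFinite _)).2 ⟨a, ha⟩
    omega

end Pool.Agent.Lib.H15K
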