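import Mathlib

/-!
# Linked star-free graphs: definitions and basic facts

All sets are `Set V`; `V` is finite.  `RIn G A x y` says that `x` and `y` are joined by a walk
inside `A`, `Cn G A` that `A` is nonempty and connected, `comp G A x` is the component of `A`
containing `x`, and `Nb G A` is the open neighbourhood of `A`.
-/

namespace Pool.Agent.Lib.H15K

variable {V : Type} {G : SimpleGraph V}

/-- `x` and `y` lie in `A` and are joined by a walk inside `A`. -/
def RIn (G : SimpleGraph V) (A : Set V) (x y : V) : Prop :=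
  x ∈ A ∧ Relation.ReflTransGen (fun u v => G.Adj u v ∧ v ∈ A) x y

/-- `A` is nonempty and connected. -/
def Cn (G : SimpleGraph V) (A : Set V) : Prop :=
  A.Nonempty ∧ ∀ x ∈ A, ∀ y ∈ A, RIn G A x y

/-- The component of `A` containing `x`. -/
def comp (G : SimpleGraph V) (A : Set V) (x : V) : Set V := {y | RIn G A x y}

/-- The open neighbourhood of `A`. -/
def Nb (G : SimpleGraph V) (A : Set V) : Set V := {v | v ∉ A ∧ ∃ a ∈ A, G.Adj a v}

/-- `r`-connected: more than `r` vertices, and connected after deleting fewer than `r` vertices. -/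
def KC (G : SimpleGraph V) (r : ℕ) : Prop :=
  r < Nat.card V ∧ ∀ X : Set V, X.ncard < r → Cn G Xᶜ

/-- Independent sets. -/
def Ind (G : SimpleGraph V) (Y : Set V) : Prop := ∀ x ∈ Y, ∀ y ∈ Y, ¬ G.Adj x y

/-- No induced star with `m` leaves. -/
def SF (G : SimpleGraph V) (m : ℕ) : Prop :=
  ∀ v : V, ∀ Y : Set V, (∀ y ∈ Y, G.Adj v y) → Ind G Y → Y.ncard < m

/-- The two sets lie in disjoint connected sets. -/
def Lk (G : SimpleGraph V) (S₁ S₂ : Set V) : Prop :=
  ∃ F₁ F₂ : Set V, S₁ ⊆ F₁ ∧ S₂ ⊆ F₂ ∧ Disjoint F₁ F₂ ∧ Cn G F₁ ∧ Cn G F₂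

/-- The set `S` is pairwise joined inside `A`. -/
def Joined (G : SimpleGraph V) (A S : Set V) : Prop := ∀ x ∈ S, ∀ y ∈ S, RIn G A x y

/-- Admissible sets of step B. -/
def Adm (G : SimpleGraph V) (S₁ S₂ K : Set V) : Prop :=
  Cn G K ∧ Disjoint K S₁ ∧ (K ∩ S₂).Nonempty ∧ Joined G (K ∪ S₂)ᶜ S₁

theorem RIn.left {A : Set V} {x y : V} (h : RIn G A x y) : x ∈ A := h.1

theorem RIn.refl {A : Set V} {x : V} (h : x ∈ A) : RIn G A x x := ⟨h, .refl⟩

theorem RIn.right {A : Set V} {x y : V} (h : RIn G A x y) : y ∈ A := by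
  obtain ⟨hx, h⟩ := h
  induction h with
  | refl => exact hx
  | tail _ h _ => exact h.2

theorem RIn.trans {A : Set V} {x y z : V} (h : RIn G A x y) (h' : RIn G A y z) :
    RIn G A x z := ⟨h.1, h.2.trans h'.2⟩

theorem RIn.tail {A : Set V} {x y z : V} (h : RIn G A x y) (ha : G.Adj y z) (hz : z ∈ A) :
    RIn G A x z := ⟨h.1, h.2.tail ⟨ha, hz⟩⟩

theorem RIn.adj {A : Set V} {x y : V} (hx : x ∈ A) (ha : G.Adj x y) (hy : y ∈ A) :
    RIn G A x y := (RIn.refl hx).tail ha hy

theorem RIn.symm {A : Set V} {x y : V} (h : RIn G A x y) : RIn G A y x := by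
  obtain ⟨hx, h⟩ := h
  induction h with
  | refl => exact RIn.refl hx
  | @tail b c hb h ih =>
    have hb' : b ∈ A := ih.left
    exact (RIn.adj h.2 h.1.symm hb').trans ih

theorem RIn.mono {A B : Set V} (hAB : A ⊆ B) {x y : V} (h : RIn G A x y) : RIn G B x y := by
  obtain ⟨hx, h⟩ := h
  induction h with
  | refl => exact RIn.refl (hAB hx)
  | tail _ h ih => exact ih.tail h.1 (hAB h.2)

/-- A set closed under steps inside `A` absorbs walks inside `A`. -/
theorem RIn.closed {A P : Set V} (hP : ∀ u ∈ P, ∀ v ∈ A, G.Adj u v → v ∈ P) {x y : V}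
    (hx : x ∈ P) (h : RIn G A x y) : y ∈ P := by
  obtain ⟨_, h⟩ := h
  induction h with
  | refl => exact hx
  | tail _ h ih => exact hP _ ih _ h.2 h.1

/-- A walk inside `A` from a vertex of a closed set `P` stays in `A ∩ P`. -/
theorem RIn.stay {A P : Set V} (hP : ∀ u ∈ P, ∀ v ∈ A, G.Adj u v → v ∈ P) {x y : V}
    (hx : x ∈ P) (h : RIn G A x y) : RIn G (A ∩ P) x y := by
  obtain ⟨hxA, h⟩ := h
  induction h with
  | refl => exact RIn.refl ⟨hxA, hx⟩
  | tail _ h ih => exact ih.tail h.1 ⟨h.2, hP _ ih.right.2 _ h.2 h.1⟩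

/-- First hit of `B` by a walk inside `A`. -/
theorem RIn.hit {A : Set V} (B : Set V) {x y : V} (h : RIn G A x y) :
    RIn G (A \ B) x y ∨
      ∃ b ∈ A ∩ B, x = b ∨ ∃ c, RIn G (A \ B) x c ∧ G.Adj c b := by
  obtain ⟨hxA, h⟩ := h
  induction h with
  | refl =>
    by_cases hx : x ∈ B
    · exact Or.inr ⟨x, ⟨hxA, hx⟩, Or.inl rfl⟩
    · exact Or.inl (RIn.refl ⟨hxA, hx⟩)
  | @tail b c _ h ih =>
    rcases ih with ih | ih
    · by_cases hc : c ∈ B
      · exact Or.inr ⟨c, ⟨h.2, hc⟩, Or.inr ⟨b, ih, h.1⟩⟩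
      · exact Or.inl (ih.tail h.1 ⟨h.2, hc⟩)
    · exact Or.inr ih

theorem mem_comp_self {A : Set V} {x : V} (h : x ∈ A) : x ∈ comp G A x := RIn.refl h

theorem comp_subset {A : Set V} {x : V} : comp G A x ⊆ A := fun _ h => h.right

theorem comp_closed {A : Set V} {x : V} : ∀ u ∈ comp G A x, ∀ v ∈ A, G.Adj u v →
    v ∈ comp G A x := fun _ hu _ hv ha => RIn.tail hu ha hv

theorem comp_joined {A : Set V} {x y : V} (h : y ∈ comp G A x) : RIn G (comp G A x) x y := by
  have hx : x ∈ A := RIn.left h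
  have := RIn.stay (G := G) (A := A) (P := comp G A x) comp_closed (mem_comp_self hx) h
  exact this.mono Set.inter_subset_right

theorem comp_cn {A : Set V} {x : V} (h : x ∈ A) : Cn G (comp G A x) :=
  ⟨⟨x, mem_comp_self h⟩, fun _ hy _ hz => (comp_joined hy).symm.trans (comp_joined hz)⟩

/-- A connected subset of `A` meeting a component of `A` lies in it. -/
theorem cn_subset_comp {A D : Set V} {x d : V} (hD : ∀ y ∈ D, ∀ z ∈ D, RIn G D y z) (hDA : D ⊆ A)
    (hd : d ∈ D) (hdx : d ∈ comp G A x) : D ⊆ comp G A x := fun y hy =>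
  RIn.trans hdx ((hD d hd y hy).mono hDA)

theorem cn_singleton (x : V) : Cn G {x} :=
  ⟨⟨x, rfl⟩, by
    intro y hy z hz
    have hy : y = x := hy
    have hz : z = x := hz
    subst hy; subst hz
    exact RIn.refl rfl⟩

/-- Adding to a connected set a vertex adjacent to it keeps it connected. -/
theorem cn_insert {K : Set V} (hK : Cn G K) {a v : V} (ha : a ∈ K) (hav : G.Adj a v) :
    Cn G (insert v K) := by
  have key : ∀ y ∈ insert v K, RIn G (insert v K) a y := by
    intro y hy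
    rcases hy with rfl | hy
    · exact RIn.adj (Set.mem_insert_of_mem _ ha) hav (Set.mem_insert _ _)
    · exact (hK.2 a ha y hy).mono (Set.subset_insert _ _)
  exact ⟨⟨v, Set.mem_insert _ _⟩, fun y hy z hz => (key y hy).symm.trans (key z hz)⟩

theorem cn_insert_nb {K : Set V} (hK : Cn G K) {v : V} (hv : v ∈ Nb G K) :
    Cn G (insert v K) := by
  obtain ⟨_, a, ha, hav⟩ := hv
  exact cn_insert hK ha hav

/-- The separation lemma. -/
theorem sep [Finite V] {r : ℕ} (h : KC G r) {A : Set V} {a b : V} (ha : a ∈ A) (hb : b ∉ A)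
    (hb' : b ∉ Nb G A) : r ≤ (Nb G A).ncard := by
  by_contra hlt
  push Not at hlt
  obtain ⟨-, hc⟩ := h.2 (Nb G A) hlt
  have h1 : RIn G (Nb G A)ᶜ a b := hc a (fun h => h.1 ha) b hb'
  refine hb (RIn.closed (P := A) ?_ ha h1)
  intro u hu v hv huv
  by_contra hvA
  exact hv ⟨hvA, u, hu, huv⟩

/-- Degrees are at least `r`. -/
theorem deg [Finite V] {r : ℕ} (h : KC G r) (v : V) : r ≤ {w | G.Adj v w}.ncard := by
  classical
  have h1 : Nb G {v} = {w | G.Adj v w} := by
    ext w
    constructor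
    · rintro ⟨_, a, ha, haw⟩
      have ha : a = v := ha
      subst ha
      exact haw
    · intro hw
      have hw : G.Adj v w := hw
      exact ⟨fun h => hw.ne (by simpa using h.symm), v, rfl, hw⟩
  by_cases hb : ∃ b, b ∉ ({v} : Set V) ∧ b ∉ Nb G {v}
  · obtain ⟨b, hb, hb'⟩ := hb
    have := sep h (A := {v}) (a := v) rfl hb hb'
    rwa [h1] at this
  · push Not at hb
    have h2 : (Set.univ : Set V) ⊆ insert v {w | G.Adj v w} := by
      intro b _
      by_cases hbv : b = v
      · exact Or.inl hbv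
      · right
        rw [← h1]
        exact hb b hbv
    have h3 : Nat.card V ≤ {w | G.Adj v w}.ncard + 1 := by
      rw [← Set.ncard_univ]
      exact (Set.ncard_le_ncard h2).trans (Set.ncard_insert_le _ _)
    have := h.1
    omega

theorem kc_mono [Finite V] {r s : ℕ} (h : KC G r) (hs : s ≤ r) : KC G s :=
  ⟨by have := h.1; omega, fun X hX => h.2 X (by omega)⟩

/-- A maximal set for a function into `ℕ`. -/
theorem exists_max [Finite V] (P : Set V → Prop) (f : Set V → ℕ) (h : ∃ K, P K) :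
    ∃ K, P K ∧ ∀ L, P L → f L ≤ f K := by
  classical
  have hfin : {K | P K}.Finite := Set.toFinite _
  obtain ⟨K, hK, hmax⟩ := Set.exists_max_image {K | P K} f hfin h
  exact ⟨K, hK, hmax⟩

theorem exists_min [Finite V] (P : Set V → Prop) (f : Set V → ℕ) (h : ∃ K, P K) :
    ∃ K, P K ∧ ∀ L, P L → f K ≤ f L := by
  classical
  have hfin : {K | P K}.Finite := Set.toFinite _
  obtain ⟨K, hK, hmin⟩ := Set.exists_min_image {K | P K} f hfin h
  exact ⟨K, hK, hmin⟩

end Pool.Agent.Lib.H15K
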