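import Pool.Agent.Lib.H15K.Defs

/-! Lemma E: few vertices of a thin connected set can be next to a connected piece `D` of it. -/

namespace Pool.Agent.Lib.H15K

variable {V : Type} {G : SimpleGraph V}

/-- A walk in `Q` from `s` to a point `d` avoided by neither of two vertices `w, w'`, each
adjacent to the connected set `D ∋ d`. -/
theorem e_two {Q D : Set V} {s d w w' : V} (hD : Cn G D) (hDQ : D ⊆ Q) (hd : d ∈ D)
    (hw : w ∈ Q) (hw' : w' ∈ Q) (hwD : w ∉ D) (hwD' : w' ∉ D) (hww : w ≠ w')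
    (ha : ∃ e ∈ D, G.Adj e w) (ha' : ∃ e ∈ D, G.Adj e w') (hs : RIn G Q s d) :
    RIn G (Q \ {w}) s d ∨ RIn G (Q \ {w'}) s d := by
  have hd1 : RIn G (Q \ {w}) w' d := by
    obtain ⟨e, he, hew⟩ := ha'
    have hDQ' : D ⊆ Q \ {w} := fun x hx => ⟨hDQ hx, fun h => hwD (h ▸ hx)⟩
    exact (RIn.adj (A := Q \ {w}) ⟨hw', fun h => hww h.symm⟩ hew.symm (hDQ' he)).trans
      ((hD.2 e he d hd).mono hDQ')
  have hd2 : RIn G (Q \ {w'}) w d := by
    obtain ⟨e, he, hew⟩ := ha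
    have hDQ' : D ⊆ Q \ {w'} := fun x hx => ⟨hDQ hx, fun h => hwD' (h ▸ hx)⟩
    exact (RIn.adj (A := Q \ {w'}) ⟨hw, hww⟩ hew.symm (hDQ' he)).trans
      ((hD.2 e he d hd).mono hDQ')
  rcases RIn.hit ({w, w'} : Set V) hs with h | ⟨b, ⟨-, hb⟩, h⟩
  · left
    refine h.mono ?_
    exact fun x hx => ⟨hx.1, fun h => hx.2 (Or.inl h)⟩
  · rcases hb with rfl | hb
    · right
      rcases h with rfl | ⟨c, hc, hcb⟩
      · exact hd2
      · refine RIn.trans (RIn.tail (hc.mono ?_) hcb ⟨hw, hww⟩) hd2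
        exact fun x hx => ⟨hx.1, fun h => hx.2 (Or.inr h)⟩
    · have hb : b = w' := hb
      subst hb
      left
      rcases h with rfl | ⟨c, hc, hcb⟩
      · exact hd1
      · refine RIn.trans (RIn.tail (hc.mono ?_) hcb ⟨hw', fun h => hww h.symm⟩) hd1
        exact fun x hx => ⟨hx.1, fun h => hx.2 (Or.inl h)⟩

theorem e_lemma [Finite V] {Q S D W0 : Set V} (hQ : Cn G Q) (hS : S ⊆ Q) (hD : Cn G D)
    (hDQ : D ⊆ Q) (hW0 : W0 ⊆ Q) (hdis : ∀ w ∈ W0, w ∉ D) (hadj : ∀ w ∈ W0, ∃ d ∈ D, G.Adj d w)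
    (hcut : ∀ w ∈ W0, w ∉ S → ∃ x ∈ S, ∃ y ∈ S, ¬ RIn G (Q \ {w}) x y) :
    W0.ncard ≤ S.ncard := by
  classical
  obtain ⟨d, hd⟩ := hD.1
  have key : ∀ w ∈ W0, w ∉ S → ∃ s ∈ S, ¬ RIn G (Q \ {w}) s d := by
    intro w hw hwS
    obtain ⟨x, hx, y, hy, hxy⟩ := hcut w hw hwS
    by_cases h : RIn G (Q \ {w}) x d
    · exact ⟨y, hy, fun h' => hxy (h.trans h'.symm)⟩
    · exact ⟨x, hx, h⟩
  -- every `w` has a terminal behind it
  have key2 : ∀ w ∈ W0, ∃ s ∈ S, (s = w ∨ w ∉ S ∧ ¬ RIn G (Q \ {w}) s d) := by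
    intro w hw
    by_cases hwS : w ∈ S
    · exact ⟨w, hwS, Or.inl rfl⟩
    · obtain ⟨s, hs, h⟩ := key w hw hwS
      exact ⟨s, hs, Or.inr ⟨hwS, h⟩⟩
  choose! f hf hf' using key2
  refine Set.ncard_le_ncard_of_injOn f (fun w hw => hf w hw) ?_ (Set.toFinite _)
  intro w hw w' hw' hww
  by_contra hne
  have hback : ∀ u ∈ W0, ∀ u' ∈ W0, u ≠ u' → RIn G (Q \ {u}) u' d := by
    intro u hu u' hu' hne
    obtain ⟨e, he, hew⟩ := hadj u' hu'
    have hDQ' : D ⊆ Q \ {u} := fun x hx => ⟨hDQ hx, fun h => hdis u hu (h ▸ hx)⟩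
    exact (RIn.adj (A := Q \ {u}) ⟨hW0 hu', fun h => hne h.symm⟩ hew.symm (hDQ' he)).trans
      ((hD.2 e he d hd).mono hDQ')
  rcases hf' w hw with h | ⟨hwS, h⟩ <;> rcases hf' w' hw' with h' | ⟨hwS', h'⟩
  · exact hne (h.symm.trans (hww.trans h'))
  · rw [← hww, h] at h'
    exact h' (hback w' hw' w hw (Ne.symm hne))
  · rw [hww, h'] at h
    exact h (hback w hw w' hw' hne)
  · rw [← hww] at h'
    have hs : RIn G Q (f w) d := hQ.2 _ (hS (hf w hw)) _ (hDQ hd)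
    rcases e_two hD hDQ hd (hW0 hw) (hW0 hw') (hdis w hw) (hdis w' hw') hne (hadj w hw)
      (hadj w' hw') hs with h1 | h1
    · exact h h1
    · exact h' h1

end Pool.Agent.Lib.H15K
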