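import Pool.Agent.Lib.H15K.A2
import Pool.Agent.Lib.H15K.B

/-! The two linkage theorems for star-free graphs. -/

namespace Pool.Agent.Lib.H15K

variable {V : Type} {G : SimpleGraph V}

theorem lk_symm {S₁ S₂ : Set V} (h : Lk G S₁ S₂) : Lk G S₂ S₁ := by
  obtain ⟨F₁, F₂, h1, h2, h3, h4, h5⟩ := h
  exact ⟨F₂, F₁, h2, h1, h3.symm, h5, h4⟩

/-- `i + j - 1` suffices when `j` is large. -/
theorem main_aux [Finite V] {m i j : ℕ} {S₁ S₂ : Set V} (hr : KC G (i + j - 1)) (hsf : SF G m)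
    (hdis : Disjoint S₁ S₂) (h1 : S₁.ncard = i) (h2 : S₂.ncard = j) (hm : 3 ≤ m) (hi : 1 ≤ i)
    (hj : 4 * m ≤ j + 7) : Lk G S₁ S₂ := by
  classical
  by_cases hi2 : 2 ≤ i
  · refine b_lemma (q0 := 2) hr hsf hdis ((Set.ncard_pos (Set.toFinite _)).1 (by omega))
      (by omega) (by omega) ?_
    exact a_lemma hr hsf hdis h1 h2 hi2 (by omega) (by omega) (by omega)
  · obtain ⟨a, ha⟩ := Set.ncard_eq_one.1 (by omega : S₁.ncard = 1)
    subst ha
    refine ⟨{a}, {a}ᶜ, le_refl _, ?_, ?_, cn_singleton a, ?_⟩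
    · exact fun x hx h' => Set.disjoint_left.1 hdis h' hx
    · exact disjoint_compl_right
    · refine hr.2 {a} ?_
      rw [Set.ncard_singleton]
      omega

/-- `r`-connected graphs with `r ≥ i + j`, `r + 4 ≥ i + ⌊j/2⌋ + 2m`. -/
theorem main_aux2 [Finite V] {m r i j : ℕ} {S₁ S₂ : Set V} (hr : KC G r) (hsf : SF G m)
    (hdis : Disjoint S₁ S₂) (h1 : S₁.ncard = i) (h2 : S₂.ncard = j) (hi : 1 ≤ i) (hj : 1 ≤ j)
    (hij : i + j ≤ r) (hb : i + j / 2 + 2 * m ≤ r + 4) : Lk G S₁ S₂ := by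
  classical
  obtain ⟨s, hs⟩ : S₂.Nonempty := (Set.ncard_pos (Set.toFinite _)).1 (by omega)
  have h3 : ({s} : Set V) ∪ S₂ = S₂ := by
    refine Set.union_eq_right.2 ?_
    intro z hz
    have hz : z = s := hz
    subst hz
    exact hs
  have h4 : ({s} : Set V) ∩ S₂ = {s} := by
    refine Set.inter_eq_left.2 ?_
    intro z hz
    have hz : z = s := hz
    subst hz
    exact hs
  refine b_lemma (q0 := 1) hr hsf hdis ((Set.ncard_pos (Set.toFinite _)).1 (by omega))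
    (by omega) (by omega) ⟨{s}, ⟨cn_singleton s, ?_, ⟨s, rfl, hs⟩, ?_⟩, ?_⟩
  · rw [Set.disjoint_left]
    intro z hz hzS
    have hz : z = s := hz
    subst hz
    exact Set.disjoint_left.1 hdis hzS hs
  · rw [h3]
    intro z hz z' hz'
    refine (hr.2 S₂ (by omega)).2 z ?_ z' ?_
    · exact fun h' => Set.disjoint_left.1 hdis hz h'
    · exact fun h' => Set.disjoint_left.1 hdis hz' h'
  · rw [h4, Set.ncard_singleton]

end Pool.Agent.Lib.H15K
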