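import Pool.Agent.Lib.H15K.Main

/-! Deleting vertices: the linkage theorems inside `G` minus a set `Z`. -/

namespace Pool.Agent.Lib.H15K

variable {V : Type} {G : SimpleGraph V}

theorem sub_rin {Z : Set V} {A : Set V} {x y : V} (hA : ∀ v ∈ A, v ∉ Z) (h : RIn G A x y) :
    ∀ (hx : x ∈ Zᶜ) (hy : y ∈ Zᶜ),
      RIn (G.induce Zᶜ) {v | (v : V) ∈ A} ⟨x, hx⟩ ⟨y, hy⟩ := by
  obtain ⟨hxA, h⟩ := h
  induction h with
  | refl => exact fun hx _ => RIn.refl hxA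
  | @tail b c hb h ih =>
    intro hx hy
    have hbA : b ∈ A := by
      have : RIn G A x b := ⟨hxA, hb⟩
      exact this.right
    have h1 := ih hx (hA b hbA)
    refine RIn.tail h1 ?_ h.2
    exact h.1

theorem sub_rin' {Z : Set V} {B : Set ↥(Zᶜ)} {x y : ↥(Zᶜ)} (h : RIn (G.induce Zᶜ) B x y) :
    RIn G (Subtype.val '' B) x y := by
  obtain ⟨hxB, h⟩ := h
  induction h with
  | refl => exact RIn.refl ⟨x, hxB, rfl⟩
  | @tail b c _ h ih => exact RIn.tail ih h.1 ⟨c, h.2, rfl⟩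

theorem sub_cn {Z : Set V} {B : Set ↥(Zᶜ)} (h : Cn (G.induce Zᶜ) B) :
    Cn G (Subtype.val '' B) := by
  obtain ⟨⟨x, hx⟩, h⟩ := h
  refine ⟨⟨x, x, hx, rfl⟩, ?_⟩
  rintro _ ⟨y, hy, rfl⟩ _ ⟨z, hz, rfl⟩
  exact sub_rin' (h y hy z hz)

theorem sub_kc [Finite V] {r : ℕ} {Z : Set V} (h : KC G r) (hZ : Z.ncard ≤ r) :
    KC (G.induce Zᶜ) (r - Z.ncard) := by
  classical
  constructor
  · have h1 : Nat.card ↥(Zᶜ) + Z.ncard = Nat.card V := by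
      have h2 := Set.ncard_add_ncard_compl Z
      have h3 : Nat.card ↥(Zᶜ) = (Zᶜ).ncard := rfl
      omega
    have h2 := h.1
    omega
  · intro X hX
    have h1 : (Z ∪ Subtype.val '' X).ncard < r := by
      have h2 := Set.ncard_union_le Z (Subtype.val '' X)
      have h3 : (Subtype.val '' X : Set V).ncard ≤ X.ncard := Set.ncard_image_le (Set.toFinite _)
      omega
    obtain ⟨⟨x, hx⟩, h2⟩ := h.2 _ h1
    have hxZ : x ∈ Zᶜ := fun h' => hx (Or.inl h')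
    have hmem : ∀ v : ↥(Zᶜ), v ∉ X → (v : V) ∈ (Z ∪ Subtype.val '' X)ᶜ := by
      rintro v hv (h' | ⟨w, hw, hwv⟩)
      · exact v.2 h'
      · exact hv (by rw [← Subtype.ext hwv]; exact hw)
    have hmem' : ∀ v : ↥(Zᶜ), (v : V) ∈ (Z ∪ Subtype.val '' X)ᶜ → v ∈ Xᶜ := by
      intro v hv h'
      exact hv (Or.inr ⟨v, h', rfl⟩)
    refine ⟨⟨⟨x, hxZ⟩, hmem' _ hx⟩, ?_⟩
    intro y hy z hz
    have h3 := h2 y (hmem y hy) z (hmem z hz)
    have h4 := sub_rin (Z := Z) (A := (Z ∪ Subtype.val '' X)ᶜ)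
      (fun v hv h' => hv (Or.inl h')) h3 y.2 z.2
    exact h4.mono fun v hv => hmem' v hv

theorem sub_sf {m : ℕ} {Z : Set V} [Finite V] (h : SF G m) : SF (G.induce Zᶜ) m := by
  intro v Y hY hI
  have h1 := h v (Subtype.val '' Y) (by
    rintro _ ⟨y, hy, rfl⟩
    exact hY y hy) (by
    rintro _ ⟨y, hy, rfl⟩ _ ⟨z, hz, rfl⟩
    exact hI y hy z hz)
  rwa [Set.ncard_image_of_injective _ Subtype.val_injective] at h1

theorem sub_pre_ncard [Finite V] {Z S : Set V} (hS : ∀ v ∈ S, v ∉ Z) :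
    ({v | (v : V) ∈ S} : Set ↥(Zᶜ)).ncard = S.ncard := by
  have h1 : Subtype.val '' ({v | (v : V) ∈ S} : Set ↥(Zᶜ)) = S := by
    ext v
    constructor
    · rintro ⟨w, hw, rfl⟩
      exact hw
    · intro hv
      exact ⟨⟨v, hS v hv⟩, hv, rfl⟩
  rw [← Set.ncard_image_of_injective _ Subtype.val_injective, h1]

/-- From a linkage theorem for `r`-connected star-free graphs to one avoiding a set `Z`. -/
theorem sub_lk [Finite V] {m r i j : ℕ}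
    (hmain : ∀ (W : Type) [Finite W] (H : SimpleGraph W), KC H r → SF H m → ∀ S₁ S₂ : Set W,
      Disjoint S₁ S₂ → S₁.ncard = i → S₂.ncard = j → Lk H S₁ S₂)
    {Z S₁ S₂ : Set V} (h : KC G (r + Z.ncard)) (hsf : SF G m) (hdis : Disjoint S₁ S₂)
    (h1 : S₁.ncard = i) (h2 : S₂.ncard = j) (hZ1 : Disjoint S₁ Z) (hZ2 : Disjoint S₂ Z) :
    ∃ F₁ F₂ : Set V, S₁ ⊆ F₁ ∧ S₂ ⊆ F₂ ∧ Disjoint F₁ F₂ ∧ Disjoint F₁ Z ∧ Disjoint F₂ Z ∧
      Cn G F₁ ∧ Cn G F₂ := by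
  classical
  have hk : KC (G.induce Zᶜ) r := by
    have h3 := sub_kc h (Nat.le_add_left _ _)
    rwa [Nat.add_sub_cancel] at h3
  have hs1 : ∀ v ∈ S₁, v ∉ Z := fun v hv h' => Set.disjoint_left.1 hZ1 hv h'
  have hs2 : ∀ v ∈ S₂, v ∉ Z := fun v hv h' => Set.disjoint_left.1 hZ2 hv h'
  obtain ⟨F₁, F₂, g1, g2, g3, g4, g5⟩ := hmain ↥(Zᶜ) (G.induce Zᶜ) hk (sub_sf hsf)
    {v | (v : V) ∈ S₁} {v | (v : V) ∈ S₂}
    (by
      rw [Set.disjoint_left]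
      intro v hv hv'
      exact Set.disjoint_left.1 hdis hv hv')
    (by rw [sub_pre_ncard hs1, h1]) (by rw [sub_pre_ncard hs2, h2])
  refine ⟨Subtype.val '' F₁, Subtype.val '' F₂, ?_, ?_, ?_, ?_, ?_, sub_cn g4, sub_cn g5⟩
  · exact fun v hv => ⟨⟨v, hs1 v hv⟩, g1 hv, rfl⟩
  · exact fun v hv => ⟨⟨v, hs2 v hv⟩, g2 hv, rfl⟩
  · rw [Set.disjoint_left]
    rintro _ ⟨v, hv, rfl⟩ ⟨w, hw, hwv⟩
    rw [Subtype.ext hwv] at hw
    exact Set.disjoint_left.1 g3 hv hw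
  · rw [Set.disjoint_left]
    rintro _ ⟨v, hv, rfl⟩ h'
    exact v.2 h'
  · rw [Set.disjoint_left]
    rintro _ ⟨v, hv, rfl⟩ h'
    exact v.2 h'

end Pool.Agent.Lib.H15K
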